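import Pool.Agent.Run7.h979.JR.Iface

/-!
# Piece MIN: recurrence with a prescribed residue
-/

set_option autoImplicit false

noncomputable section

namespace Run7.h858.JR

open Finset Classical Run7.h979.JR

theorem key (L : Lv) (M0 M1 M2 : ℕ) (hM0 : 3 ≤ M0) (g : ℕ → L.V) (u : ℤ → ZMod 3)
    (hu : Leg (((L.next M0).next M1).next M2) u) (t : ℤ) :
    ∃ j : ℕ, ∀ e : ℕ, e < M1 → ∀ m : ℕ, m < 3 → ∀ i : ℕ, i < L.len →
      u ((((t * (((L.next M0).next M1).N M2 : ℕ) + j) * ((L.next M0).N M1 : ℕ) + e) *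
        (L.N M0 : ℕ) + m) * L.len + i) = L.lt (g m) i := by
  obtain ⟨f, hf, hfg⟩ := L.fill M0 g
  let V : (L.next M0).V := ⟨f, hf⟩
  obtain ⟨f', hf', hfg'⟩ := (L.next M0).fill M1 (fun _ => V)
  let W : ((L.next M0).next M1).V := ⟨f', hf'⟩
  obtain ⟨Q, hQ⟩ := hu t
  have hne : (univ.filter (fun j => Q.1 j = W)).Nonempty := by
    apply card_pos.1
    have := Q.2 W
    omega
  obtain ⟨j, hj⟩ := hne
  have hj' : Q.1 j = W := (mem_filter.1 hj).2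
  refine ⟨j.1, fun e he m hm i hi => ?_⟩
  have h1 := (sub_iff ((L.next M0).next M1) M2 u t Q).1 hQ j
  rw [hj'] at h1
  have he' : e < (L.next M0).N M1 := by
    unfold Lv.N
    omega
  have h2 := (sub_iff (L.next M0) M1 u _ W).1 h1 ⟨e, he'⟩
  have h3 : W.1 ⟨e, he'⟩ = V := hfg' _ he
  rw [h3] at h2
  have hm' : m < L.N M0 := by
    unfold Lv.N
    omega
  have h4 := (sub_iff L M0 u _ V).1 h2 ⟨m, hm'⟩ i hi
  have h5 : V.1 ⟨m, hm'⟩ = g m := hfg _ (by show m < M0; omega)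
  rw [h5] at h4
  exact h4

theorem t_MIN : S_MIN := by
  intro y hy y' hy' k r
  obtain ⟨⟨z', hz'⟩, hl'⟩ := hy' k
  have hleg' := hl' z' (hz' k le_rfl)
  choose X hX using hleg'
  obtain ⟨⟨z, hz⟩, hl⟩ := hy (k + 3)
  have hleg := hl z (hz (k + 3) le_rfl)
  have hℓ : (0 : ℤ) < (ell k : ℤ) := by exact_mod_cast ell_pos k
  obtain ⟨ℓ, hℓdef⟩ : ∃ ℓ : ℤ, ℓ = (ell k : ℤ) := ⟨_, rfl⟩
  obtain ⟨t0, ht0⟩ : ∃ t0 : ℤ, t0 = z' / ℓ := ⟨_, rfl⟩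
  have hℓ1 : 0 < ℓ := by rw [hℓdef]; exact hℓ
  have hz1 : t0 * ℓ ≤ z' := by rw [ht0]; exact Int.ediv_mul_le _ hℓ1.ne'
  have hz2 : z' < (t0 + 1) * ℓ := by
    have := Int.lt_ediv_add_one_mul_self z' hℓ1
    rw [ht0]
    exact this
  let g : ℕ → (Lk k).V := fun m => X (t0 - 1 + m)
  have hM0 : 3 ≤ MM k := by
    unfold MM
    have : 2 ^ 2 ≤ 2 ^ (k + 2) := Nat.pow_le_pow_right (by norm_num) (by omega)
    omega
  obtain ⟨T, hT⟩ : ∃ T : ℤ, T = |z| + |z'| + |(t0 - 1) * ℓ| := ⟨_, rfl⟩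
  have hT0 : 0 ≤ T := by rw [hT]; positivity
  obtain ⟨j, hj⟩ := key (Lk k) (MM k) (MM (k + 1)) (MM (k + 2)) hM0 g _ hleg T
  obtain ⟨N2, hN2⟩ : ∃ N2 : ℤ, N2 = ((((Lk k).next (MM k)).next (MM (k + 1))).N (MM (k + 2)) : ℕ) :=
    ⟨_, rfl⟩
  obtain ⟨N1, hN1⟩ : ∃ N1 : ℤ, N1 = (((Lk k).next (MM k)).N (MM (k + 1)) : ℕ) := ⟨_, rfl⟩
  obtain ⟨N0, hN0⟩ : ∃ N0 : ℤ, N0 = ((Lk k).N (MM k) : ℕ) := ⟨_, rfl⟩
  have hN2' : 1 ≤ N2 := by
    rw [hN2]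
    exact_mod_cast Lv.N_pos _ _
  have hN1' : 1 ≤ N1 := by
    rw [hN1]
    exact_mod_cast Lv.N_pos _ _
  have hN0' : 1 ≤ N0 := by
    rw [hN0]
    exact_mod_cast Lv.N_pos _ _
  rw [← hN2, ← hN1, ← hN0] at hj
  -- the constant part
  obtain ⟨c, hc⟩ : ∃ c : ℤ, c = (T * N2 + j) * N1 * (N0 * ℓ) - z - (t0 - 1) * ℓ + z' := ⟨_, rfl⟩
  have hodd : Nat.Coprime (ell (k + 1)) (2 ^ k) :=
    Nat.Coprime.pow_right _ (Nat.Coprime.symm (Nat.coprime_two_left.2 (ell_odd (k + 1))))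
  let un := ZMod.unitOfCoprime (ell (k + 1)) hodd
  haveI : NeZero (2 ^ k) := ⟨by positivity⟩
  let ez : ZMod (2 ^ k) := ((r : ZMod (2 ^ k)) - (c : ZMod (2 ^ k))) * (un⁻¹ : (ZMod (2 ^ k))ˣ)
  have hez : ez * (ell (k + 1) : ZMod (2 ^ k)) = (r : ZMod (2 ^ k)) - (c : ZMod (2 ^ k)) := by
    have h1 : (ell (k + 1) : ZMod (2 ^ k)) = (un : ZMod (2 ^ k)) := (ZMod.coe_unitOfCoprime _ _).symm
    rw [h1]
    show ((r : ZMod (2 ^ k)) - (c : ZMod (2 ^ k))) * (un⁻¹ : (ZMod (2 ^ k))ˣ) * un = _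
    rw [mul_assoc, Units.inv_mul, mul_one]
  obtain ⟨e, he⟩ : ∃ e : ℕ, e = ez.val := ⟨_, rfl⟩
  have he1 : e < 2 ^ k := by rw [he]; exact ZMod.val_lt _
  have he2 : e < MM (k + 1) := by
    unfold MM
    have : 2 ^ k ≤ 2 ^ (k + 1 + 2) := Nat.pow_le_pow_right (by norm_num) (by omega)
    omega
  have he3 : (e : ZMod (2 ^ k)) = ez := by rw [he]; exact ZMod.natCast_zmod_val _
  have hellk : (ell (k + 1) : ℤ) = N0 * ℓ := by
    rw [hN0, hℓdef, ell_succ]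
    push_cast
    rfl
  obtain ⟨n', hn'⟩ : ∃ n' : ℤ, n' = c + e * (N0 * ℓ) := ⟨_, rfl⟩
  have hn'0 : 0 ≤ n' := by
    rw [hn', hc]
    have a1 : T ≤ T * N2 := le_mul_of_one_le_right hT0 hN2'
    have a2 : T * N2 + j ≤ (T * N2 + j) * N1 := le_mul_of_one_le_right (by positivity) hN1'
    have a3 : 1 ≤ N0 * ℓ := by nlinarith
    have a4 : (T * N2 + j) * N1 ≤ (T * N2 + j) * N1 * (N0 * ℓ) :=
      le_mul_of_one_le_right (by positivity) a3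
    have a5 : 0 ≤ (e : ℤ) * (N0 * ℓ) := by positivity
    have a6 : (0 : ℤ) ≤ j := by positivity
    have b1 := le_abs_self z
    have b2 := neg_abs_le z'
    have b3 := le_abs_self ((t0 - 1) * ℓ)
    linarith
  obtain ⟨n, hn⟩ := Int.eq_ofNat_of_zero_le hn'0
  have hnz : (n : ℤ) = c + e * (N0 * ℓ) := by rw [← hn', hn]
  refine ⟨n, ?_, fun i hi => ?_, fun i hi => ?_⟩
  · rw [← ZMod.natCast_eq_natCast_iff]
    have h1 : (n : ZMod (2 ^ k)) = ((n : ℤ) : ZMod (2 ^ k)) := by simp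
    rw [h1, hnz, ← hellk]
    push_cast
    rw [he3, hez]
    ring
  · have h1 : (n : ZMod (ell i)) = ((n : ℤ) : ZMod (ell i)) := by simp
    have h2 : ((ℓ : ℤ) : ZMod (ell i)) = 0 := by
      rw [hℓdef]
      exact_mod_cast (ZMod.natCast_eq_zero_iff _ _).2 (ell_dvd hi)
    rw [h1, hnz, hc, hz i (by omega), hz' i hi]
    push_cast
    rw [h2]
    ring
  · rw [← hℓdef, abs_le] at hi
    obtain ⟨hi1, hi2⟩ := hi
    obtain ⟨s, hs⟩ : ∃ s : ℤ, s = i + z' - (t0 - 1) * ℓ := ⟨_, rfl⟩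
    have hs0 : 0 ≤ s := by rw [hs]; nlinarith
    have hs1 : s < 3 * ℓ := by rw [hs]; nlinarith
    have hm0 : 0 ≤ s / ℓ := Int.ediv_nonneg hs0 hℓ1.le
    have hm1 : s / ℓ < 3 := Int.ediv_lt_of_lt_mul hℓ1 hs1
    have hi0 : 0 ≤ s % ℓ := Int.emod_nonneg _ hℓ1.ne'
    have hi3 : s % ℓ < ℓ := Int.emod_lt_of_pos _ hℓ1
    obtain ⟨m, hm⟩ := Int.eq_ofNat_of_zero_le hm0
    obtain ⟨a, ha⟩ := Int.eq_ofNat_of_zero_le hi0
    have hsm : s = m * ℓ + a := by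
      have := Int.mul_ediv_add_emod s ℓ
      rw [hm, ha] at this
      linarith
    have hm3 : m < 3 := by
      have h : (m : ℤ) < 3 := by rw [← hm]; exact hm1
      exact_mod_cast h
    have ha3 : a < (Lk k).len := by
      have h : (a : ℤ) < ((Lk k).len : ℤ) := by
        rw [← ha]
        calc s % ℓ < ℓ := hi3
          _ = _ := hℓdef
      exact_mod_cast h
    have h1 := hj e he2 m hm3 a ha3
    have h2 := hX (t0 - 1 + m) a ha3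
    have h3 : y.2 (i + n) = y.2 ((((T * N2 + j) * N1 + e) * N0 + m) * ((Lk k).len : ℤ) + a - z) := by
      congr 1
      have h4 : ((Lk k).len : ℤ) = ℓ := hℓdef.symm
      have h5 : i = s - z' + (t0 - 1) * ℓ := by rw [hs]; ring
      rw [hnz, h4, hc, h5, hsm]
      ring
    have h4 : y'.2 i = y'.2 ((t0 - 1 + m) * ((Lk k).len : ℤ) + a - z') := by
      congr 1
      have h4 : ((Lk k).len : ℤ) = ℓ := hℓdef.symm
      have h5 : i = s - z' + (t0 - 1) * ℓ := by rw [hs]; ring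
      rw [h4, h5, hsm]
      ring
    rw [h3, h4]
    exact h1.trans h2.symm

end Run7.h858.JR

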